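import Mathlib
import Pool.Agent.Helper7.BM.Goals2

/-!
Project BM, packet LIN: a linear relation from vanishing determinants.
-/

set_option autoImplicit false

namespace Pool.Agent.Helper86.BM

open Pool.Agent.Helper7.BM

/-- Packet LIN. -/
theorem lin : StmtLIN := by
  intro J P _ _ V hV
  have hS : Submodule.span ℚ (Set.range V) ≠ ⊤ := by
    intro htop
    obtain ⟨b, hb, hspan, hli⟩ := exists_linearIndependent ℚ (Set.range V)
    rw [htop] at hspan
    have hli' : LinearIndependent ℚ ((↑) : b → J → ℚ) := hli
    have B : Module.Basis b ℚ (J → ℚ) := Module.Basis.mk hli' (by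
      rw [Subtype.range_coe, hspan])
    have hcard : Nonempty (J ≃ b) := ⟨(Pi.basisFun ℚ J).indexEquiv B⟩
    obtain ⟨e⟩ := hcard
    have hw : ∀ k : J, ∃ p : P, V p = (e k : J → ℚ) := fun k => hb (e k).2
    choose w hw using hw
    have hdet := hV w
    have hrow : LinearIndependent ℚ (Matrix.of fun k j => V (w k) j).row := by
      have h1 : (Matrix.of fun k j => V (w k) j).row = fun k => (e k : J → ℚ) := by
        funext k
        exact hw k
      rw [h1]
      exact hli'.comp e e.injective
    rw [Matrix.linearIndependent_rows_iff_isUnit, Matrix.isUnit_iff_isUnit_det, hdet] at hrow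
    exact not_isUnit_zero hrow
  obtain ⟨f, hf, hker⟩ := Submodule.exists_le_ker_of_lt_top _ (lt_top_iff_ne_top.2 hS)
  refine ⟨fun j => f (fun i => if j = i then 1 else 0), ?_, ?_⟩
  · intro h0
    apply hf
    ext1 x
    ext
    rw [LinearMap.comp_apply, LinearMap.comp_apply, LinearMap.pi_apply_eq_sum_univ f]
    simp only [LinearMap.zero_apply]
    refine Finset.sum_eq_zero (fun i _ => ?_)
    rw [congrFun h0 i]
    simp
  · intro p
    have h1 : f (V p) = 0 := hker (Submodule.subset_span ⟨p, rfl⟩)
    rw [LinearMap.pi_apply_eq_sum_univ f] at h1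
    refine (Finset.sum_congr rfl (fun j _ => ?_)).trans h1
    rw [smul_eq_mul, mul_comm]

end Pool.Agent.Helper86.BM
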