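import Mathlib
import Pool.Agent.Helper7.BM.Goals

/-!
Project BM, packet VAND: vanishing power sums.
-/

set_option autoImplicit false

namespace Pool.Agent.Helper86.BM

open Pool.Agent.Helper7.BM

/-- Packet VAND. -/
theorem vand : StmtVAND := by
  intro ι _ c A hA hpos h
  let e : Fin (Fintype.card ι) ≃ ι := (Fintype.equivFin ι).symm
  have key : (fun j : Fin (Fintype.card ι) => (c (e j) : ℝ) * A (e j)) = 0 := by
    refine Matrix.eq_zero_of_forall_pow_sum_mul_pow_eq_zero (f := fun j => A (e j))
      (hA.comp e.injective) ?_
    intro i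
    have h1 := h (i + 1) (by omega) (by have := i.2; omega)
    rw [← e.sum_comp] at h1
    rw [← h1]
    refine Finset.sum_congr rfl (fun j _ => ?_)
    rw [pow_succ']
    ring
  funext i
  have h2 := congrFun key (e.symm i)
  simp only [Equiv.apply_symm_apply, Pi.zero_apply] at h2
  have h3 := (mul_eq_zero.1 h2).resolve_right (ne_of_gt (hpos i))
  exact_mod_cast h3

end Pool.Agent.Helper86.BM
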